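import Pool.Agent.H14.AVS.S5

/-!
# AVS, module TB3: large primes with a triple root
-/

set_option autoImplicit false

namespace Pool.AVS.TB3

open Polynomial Matrix Pool.AVR

variable {F : Type} [Field F]

/-- Polynomials of degree less than `N`. -/
def PD (F : Type) [Field F] (N : ℕ) : Set F[X] := {p | p.degree < (N : WithBot ℕ)}

lemma PD_fin [Finite F] (N : ℕ) : (PD F N).Finite := by
  have e := (Polynomial.degreeLTEquiv F N).toEquiv
  have h1 : Finite (Polynomial.degreeLT F N) := Finite.of_equiv _ e.symm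
  have h2 : (PD F N) = ((Polynomial.degreeLT F N : Submodule F F[X]) : Set F[X]) := by
    ext p
    simp [PD, Polynomial.mem_degreeLT]
  rw [h2]
  exact Set.toFinite _

lemma PD_card [Finite F] (N : ℕ) : (PD F N).ncard = Nat.card F ^ N := by
  have e := (Polynomial.degreeLTEquiv F N).toEquiv
  have h2 : (PD F N) = ((Polynomial.degreeLT F N : Submodule F F[X]) : Set F[X]) := by
    ext p
    simp [PD, Polynomial.mem_degreeLT]
  rw [h2, ← Nat.card_coe_set_eq]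
  have h3 : Nat.card (Polynomial.degreeLT F N) = Nat.card (Fin N → F) := Nat.card_congr e
  have h4 : Nat.card (Fin N → F) = Nat.card F ^ N := by
    rw [Nat.card_fun, Nat.card_eq_fintype_card (α := Fin N), Fintype.card_fin]
  rw [← h4, ← h3]
  rfl

/-- Counting by fibres. -/
lemma fib {α β γ : Type} (S : Set α) (f : α → β) (g : α → γ) (U : Set β) (hU : U.Finite)
    (M : ℕ) (hf : ∀ x ∈ S, f x ∈ U)
    (hinj : ∀ x ∈ S, ∀ y ∈ S, f x = f y → g x = g y → x = y)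
    (hg : ∀ u ∈ U, ∃ V : Set γ, V.Finite ∧ V.ncard ≤ M ∧ ∀ x ∈ S, f x = u → g x ∈ V) :
    S.Finite ∧ S.ncard ≤ U.ncard * M := by
  classical
  have hg' : ∀ u : β, ∃ V : Set γ, V.Finite ∧ V.ncard ≤ M ∧ (u ∈ U → ∀ x ∈ S, f x = u → g x ∈ V) := by
    intro u
    by_cases hu : u ∈ U
    · obtain ⟨V, h1, h2, h3⟩ := hg u hu
      exact ⟨V, h1, h2, fun _ => h3⟩
    · exact ⟨∅, Set.finite_empty, by simp, fun h => absurd h hu⟩
  choose V hV1 hV2 hV3 using hg'
  let W : Finset (β × γ) := hU.toFinset.biUnion fun u => ((hV1 u).toFinset).image fun v => (u, v)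
  have hinj' : Set.InjOn (fun x => (f x, g x)) S := by
    intro x hx y hy hxy
    simp only [Prod.mk.injEq] at hxy
    exact hinj x hx y hy hxy.1 hxy.2
  have himg : (fun x => (f x, g x)) '' S ⊆ (W : Set (β × γ)) := by
    rintro _ ⟨x, hx, rfl⟩
    simp only [W, Finset.coe_biUnion, Set.mem_iUnion, Finset.mem_coe, Finset.mem_image,
      Set.Finite.mem_toFinset]
    exact ⟨f x, hf x hx, g x, hV3 (f x) (hf x hx) x hx rfl, rfl⟩
  have hfin : S.Finite := Set.Finite.of_finite_image ((Finset.finite_toSet W).subset himg) hinj'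
  refine ⟨hfin, ?_⟩
  have h1 : S.ncard = ((fun x => (f x, g x)) '' S).ncard := hinj'.ncard_image.symm
  have h2 : ((fun x => (f x, g x)) '' S).ncard ≤ (W : Set (β × γ)).ncard :=
    Set.ncard_le_ncard himg (Finset.finite_toSet W)
  have h3 : (W : Set (β × γ)).ncard = W.card := Set.ncard_coe_finset W
  have h4 : W.card ≤ hU.toFinset.card * M := by
    apply Finset.card_biUnion_le_card_mul
    intro u hu
    refine le_trans Finset.card_image_le ?_
    rw [← Set.ncard_eq_toFinset_card _ (hV1 u)]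
    exact hV2 u
  have h5 : hU.toFinset.card = U.ncard := (Set.ncard_eq_toFinset_card _ hU).symm
  rw [h1]
  refine le_trans h2 ?_
  rw [h3]
  refine le_trans h4 ?_
  rw [h5]

/-- A residue class modulo a prime. -/
lemma res [Finite F] (P h α : F[X]) (hP : Irreducible P) (hα : ¬ P ∣ α) (N : ℕ) :
    ({z | z ∈ PD F N ∧ P ∣ h + α * z}).ncard ≤ Nat.card F ^ (N - P.natDegree) := by
  classical
  rcases Set.eq_empty_or_nonempty {z | z ∈ PD F N ∧ P ∣ h + α * z} with he | ⟨z0, hz0, hz1⟩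
  · rw [he]
    simp
  have hPr : Prime P := hP.prime
  have hP0 : P ≠ 0 := hP.ne_zero
  rw [← PD_card (F := F)]
  have key : ∀ z ∈ {z | z ∈ PD F N ∧ P ∣ h + α * z}, ∃ w ∈ PD F (N - P.natDegree),
      z = z0 + P * w := by
    rintro z ⟨h1, h2⟩
    have h3 : P ∣ α * (z - z0) := by
      have : α * (z - z0) = (h + α * z) - (h + α * z0) := by ring
      rw [this]
      exact dvd_sub h2 hz1
    obtain ⟨w, hw⟩ := (hPr.dvd_or_dvd h3).resolve_left hα
    refine ⟨w, ?_, by rw [← hw]; ring⟩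
    by_cases hw0 : w = 0
    · rw [hw0]
      simp [PD]
    have h4 : (z - z0).degree < (N : WithBot ℕ) :=
      lt_of_le_of_lt (Polynomial.degree_sub_le _ _) (max_lt h1 hz0)
    rw [hw, Polynomial.degree_mul, Polynomial.degree_eq_natDegree hP0,
      Polynomial.degree_eq_natDegree hw0] at h4
    have h5 : P.natDegree + w.natDegree < N := by exact_mod_cast h4
    change w.degree < _
    rw [Polynomial.degree_eq_natDegree hw0]
    have : w.natDegree < N - P.natDegree := by omega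
    exact_mod_cast this
  have hsub : {z | z ∈ PD F N ∧ P ∣ h + α * z} ⊆ (fun w => z0 + P * w) '' PD F (N - P.natDegree) := by
    intro z hz
    obtain ⟨w, hw1, hw2⟩ := key z hz
    exact ⟨w, hw1, hw2.symm⟩
  exact le_trans (Set.ncard_le_ncard hsub ((PD_fin _).image _)) (Set.ncard_image_le (PD_fin _))

/-- The monic prime divisors of large degree. -/
def Pr (n : ℕ) (R : F[X]) : Set F[X] := {P | P.Monic ∧ Irreducible P ∧ n < 2 * P.natDegree ∧ P ∣ R}

lemma Pr_fin (n : ℕ) (R : F[X]) (hR : R ≠ 0) : (Pr n R).Finite := by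
  classical
  refine ((UniqueFactorizationMonoid.normalizedFactors R).toFinset.finite_toSet).subset ?_
  rintro P ⟨h1, h2, -, h4⟩
  rw [Finset.mem_coe, Multiset.mem_toFinset,
    UniqueFactorizationMonoid.mem_normalizedFactors_iff' hR]
  exact ⟨h2, h1.normalize_eq_self, h4⟩

lemma Pr_card (n : ℕ) (R : F[X]) (hR : R ≠ 0) : (Pr n R).ncard * n ≤ 2 * R.natDegree := by
  classical
  have hf := Pr_fin n R hR
  rw [Set.ncard_eq_toFinset_card _ hf]
  set s := hf.toFinset with hs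
  have hmem : ∀ P ∈ s, P.Monic ∧ Irreducible P ∧ n < 2 * P.natDegree ∧ P ∣ R := by
    intro P hP
    rw [hs, Set.Finite.mem_toFinset] at hP
    exact hP
  have hdvd : (∏ P ∈ s, P) ∣ R := by
    apply Finset.prod_dvd_of_coprime
    · intro P hP Q hQ hne
      refine ((hmem P hP).2.1.coprime_iff_not_dvd).2 fun h => hne ?_
      exact eq_of_monic_of_associated (hmem P hP).1 (hmem Q hQ).1
        ((hmem P hP).2.1.associated_of_dvd (hmem Q hQ).2.1 h)
    · intro P hP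
      exact (hmem P hP).2.2.2
  have h1 : (∏ P ∈ s, P).natDegree = ∑ P ∈ s, P.natDegree :=
    Polynomial.natDegree_prod _ _ (fun P hP => (hmem P hP).2.1.ne_zero)
  have h2 : ∑ P ∈ s, P.natDegree ≤ R.natDegree := by
    rw [← h1]
    exact Polynomial.natDegree_le_of_dvd hdvd hR
  have h3 : s.card * n ≤ ∑ P ∈ s, 2 * P.natDegree := by
    rw [← smul_eq_mul]
    apply Finset.card_nsmul_le_sum
    intro P hP
    exact (hmem P hP).2.2.1.le
  rw [← Finset.mul_sum] at h3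
  omega

/-- Union over the large prime divisors of `R`. -/
lemma uni [Finite F] (n : ℕ) (R h α : F[X]) (hR : R ≠ 0) (N K : ℕ) (hK : 2 * R.natDegree ≤ K * n)
    (hn : 0 < n) :
    ({z | z ∈ PD F N ∧ ∃ P ∈ Pr n R, ¬ P ∣ α ∧ P ∣ h + α * z}).ncard ≤
      K * Nat.card F ^ (N - n / 2) := by
  classical
  have hf := Pr_fin n R hR
  have hq : 0 < Nat.card F := Nat.card_pos
  have hsub : {z | z ∈ PD F N ∧ ∃ P ∈ Pr n R, ¬ P ∣ α ∧ P ∣ h + α * z} ⊆
      ⋃ P ∈ hf.toFinset, {z | ¬ P ∣ α ∧ z ∈ PD F N ∧ P ∣ h + α * z} := by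
    rintro z ⟨h1, P, hP, h2, h3⟩
    simp only [Set.mem_iUnion]
    exact ⟨P, hf.mem_toFinset.2 hP, h2, h1, h3⟩
  have hfin : ∀ P ∈ hf.toFinset, ({z | ¬ P ∣ α ∧ z ∈ PD F N ∧ P ∣ h + α * z}).Finite := by
    intro P _
    exact (PD_fin N).subset fun z hz => hz.2.1
  have hfinU : (⋃ P ∈ hf.toFinset, {z | ¬ P ∣ α ∧ z ∈ PD F N ∧ P ∣ h + α * z}).Finite :=
    (PD_fin N).subset (by
      intro z hz
      simp only [Set.mem_iUnion] at hz
      obtain ⟨P, -, hz⟩ := hz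
      exact hz.2.1)
  have h1 : (⋃ P ∈ hf.toFinset, {z | ¬ P ∣ α ∧ z ∈ PD F N ∧ P ∣ h + α * z}).ncard ≤
      ∑ P ∈ hf.toFinset, ({z | ¬ P ∣ α ∧ z ∈ PD F N ∧ P ∣ h + α * z}).ncard :=
    Finset.set_ncard_biUnion_le _ _
  have h2 : ∀ P ∈ hf.toFinset, ({z | ¬ P ∣ α ∧ z ∈ PD F N ∧ P ∣ h + α * z}).ncard ≤
      Nat.card F ^ (N - n / 2) := by
    intro P hP
    rw [Set.Finite.mem_toFinset] at hP
    by_cases hα : P ∣ α
    · have : {z | ¬ P ∣ α ∧ z ∈ PD F N ∧ P ∣ h + α * z} = ∅ := by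
        ext z
        simp [hα]
      rw [this]
      simp
    · have h3 : {z | ¬ P ∣ α ∧ z ∈ PD F N ∧ P ∣ h + α * z} = {z | z ∈ PD F N ∧ P ∣ h + α * z} := by
        ext z
        simp [hα]
      rw [h3]
      refine le_trans (res P h α hP.2.1 hα N) ?_
      have h4 := hP.2.2.1
      exact Nat.pow_le_pow_right hq (by omega)
  have h5 : hf.toFinset.card ≤ K := by
    have h6 := Pr_card n R hR
    rw [Set.ncard_eq_toFinset_card _ hf] at h6
    exact Nat.le_of_mul_le_mul_right (le_trans h6 hK) hn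
  calc _ ≤ _ := Set.ncard_le_ncard hsub hfinU
    _ ≤ _ := h1
    _ ≤ hf.toFinset.card • Nat.card F ^ (N - n / 2) := Finset.sum_le_card_nsmul _ _ _ h2
    _ ≤ K * Nat.card F ^ (N - n / 2) := by
      rw [smul_eq_mul]
      exact Nat.mul_le_mul_right _ h5

/-- Roots of a quadratic polynomial. -/
lemma quad {R : Type} [CommRing R] [IsDomain R] (A β γ : R) (hA : A ≠ 0) :
    ({x : R | A * x ^ 2 + β * x + γ = 0}).Finite ∧
      ({x : R | A * x ^ 2 + β * x + γ = 0}).ncard ≤ 2 := by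
  classical
  set p : R[X] := C A * X ^ 2 + C β * X + C γ with hp
  have hp0 : p ≠ 0 := by
    intro h0
    have : p.coeff 2 = A := by
      rw [hp]
      simp
    rw [h0] at this
    simp at this
    exact hA this.symm
  have hsub : {x : R | A * x ^ 2 + β * x + γ = 0} ⊆ (p.roots.toFinset : Set R) := by
    intro x hx
    rw [Finset.mem_coe, Multiset.mem_toFinset, Polynomial.mem_roots hp0, Polynomial.IsRoot.def, hp]
    simp only [Polynomial.eval_add, Polynomial.eval_mul, Polynomial.eval_pow, Polynomial.eval_C,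
      Polynomial.eval_X]
    exact hx
  refine ⟨(Finset.finite_toSet _).subset hsub, ?_⟩
  refine le_trans (Set.ncard_le_ncard hsub (Finset.finite_toSet _)) ?_
  rw [Set.ncard_coe_finset]
  refine le_trans (Multiset.toFinset_card_le _) ?_
  refine le_trans (Polynomial.card_roots' p) ?_
  exact Polynomial.natDegree_quadratic_le


lemma PD_mem {p : F[X]} {N : ℕ} (h : p ≠ 0 → p.natDegree < N) : p ∈ PD F N := by
  change p.degree < _
  by_cases hp : p = 0
  · rw [hp, Polynomial.degree_zero]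
    exact WithBot.bot_lt_coe N
  · rw [Polynomial.degree_eq_natDegree hp]
    exact_mod_cast h hp

lemma PD_nat {p : F[X]} {N : ℕ} (h : p ∈ PD F (N + 1)) : p.natDegree ≤ N := by
  by_cases hp : p = 0
  · rw [hp]
    simp
  · have h1 : p.degree < ((N + 1 : ℕ) : WithBot ℕ) := h
    rw [Polynomial.degree_eq_natDegree hp] at h1
    have h2 : p.natDegree < N + 1 := by exact_mod_cast h1
    omega

/-- The entries of a matrix in the box. -/
lemma ent (n m : ℕ) (hnm : m ≤ n) (B : Matrix (Fin 3) (Fin 3) F[X]) (h : Bd n m B) :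
    B 0 0 ∈ PD F (2 * n - 2 * m + 1) ∧ B 0 1 ∈ PD F (2 * n - m + 1) ∧ B 0 2 ∈ PD F (2 * n + 1) ∧
    B 1 1 ∈ PD F (2 * n + 1) ∧ B 1 2 ∈ PD F (2 * n + m + 1) ∧ B 2 2 ∈ PD F (2 * n + 2 * m + 1) ∧
    B 1 0 = B 0 1 ∧ B 2 0 = B 0 2 ∧ B 2 1 = B 1 2 := by
  obtain ⟨hs, hd⟩ := h
  have hs' : ∀ i j, B j i = B i j := fun i j => congrFun (congrFun hs i) j
  refine ⟨?_, ?_, ?_, ?_, ?_, ?_, hs' 0 1, hs' 0 2, hs' 1 2⟩
  · refine PD_mem fun h0 => ?_
    have := hd 0 0 h0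
    simp [dd] at this
    omega
  · refine PD_mem fun h0 => ?_
    have := hd 0 1 h0
    simp [dd] at this
    omega
  · refine PD_mem fun h0 => ?_
    have := hd 0 2 h0
    simp [dd] at this
    omega
  · refine PD_mem fun h0 => ?_
    have := hd 1 1 h0
    simp [dd] at this
    omega
  · refine PD_mem fun h0 => ?_
    have := hd 1 2 h0
    simp [dd] at this
    omega
  · refine PD_mem fun h0 => ?_
    have := hd 2 2 h0
    simp [dd] at this
    omega

lemma box [Finite F] (a b c d e : ℕ) :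
    (PD F a ×ˢ (PD F b ×ˢ (PD F c ×ˢ (PD F d ×ˢ PD F e)))).Finite ∧
    (PD F a ×ˢ (PD F b ×ˢ (PD F c ×ˢ (PD F d ×ˢ PD F e)))).ncard =
      Nat.card F ^ (a + b + c + d + e) := by
  refine ⟨(PD_fin a).prod ((PD_fin b).prod ((PD_fin c).prod ((PD_fin d).prod (PD_fin e)))), ?_⟩
  rw [Set.ncard_prod, Set.ncard_prod, Set.ncard_prod, Set.ncard_prod]
  simp only [PD_card]
  ring

/-- Counting along the last entry. -/
lemma cz [Finite F] (n m : ℕ) (hnm : m ≤ n) (S : Set (Matrix (Fin 3) (Fin 3) F[X]))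
    (hS : ∀ B ∈ S, Bd n m B) (M : ℕ)
    (h : ∀ al be ga de et : F[X], al ∈ PD F (2 * n - 2 * m + 1) → be ∈ PD F (2 * n - m + 1) →
      ga ∈ PD F (2 * n + 1) → de ∈ PD F (2 * n + 1) → et ∈ PD F (2 * n + m + 1) →
      ∃ V : Set F[X], V.Finite ∧ V.ncard ≤ M ∧ ∀ B ∈ S, B 0 0 = al → B 0 1 = be → B 0 2 = ga →
        B 1 1 = de → B 1 2 = et → B 2 2 ∈ V) :
    S.ncard ≤ Nat.card F ^ (10 * n - 2 * m + 5) * M := by
  obtain ⟨hU, hU'⟩ := box (F := F) (2 * n - 2 * m + 1) (2 * n - m + 1) (2 * n + 1) (2 * n + 1)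
    (2 * n + m + 1)
  have key := fib S (fun B => (B 0 0, B 0 1, B 0 2, B 1 1, B 1 2)) (fun B => B 2 2) _ hU M
    (by
      intro B hB
      obtain ⟨h1, h2, h3, h4, h5, h6, -⟩ := ent n m hnm B (hS B hB)
      exact ⟨h1, h2, h3, h4, h5⟩)
    (by
      intro B hB B' hB' h1 h2
      simp only [Prod.mk.injEq] at h1
      obtain ⟨a1, a2, a3, a4, a5⟩ := h1
      obtain ⟨-, -, -, -, -, -, b1, b2, b3⟩ := ent n m hnm B (hS B hB)
      obtain ⟨-, -, -, -, -, -, c1, c2, c3⟩ := ent n m hnm B' (hS B' hB')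
      ext1 i j
      fin_cases i <;> fin_cases j <;> simp [*])
    (by
      rintro ⟨al, be, ga, de, et⟩ ⟨h1, h2, h3, h4, h5⟩
      obtain ⟨V, v1, v2, v3⟩ := h al be ga de et h1 h2 h3 h4 h5
      refine ⟨V, v1, v2, ?_⟩
      intro B hB hB'
      simp only [Prod.mk.injEq] at hB'
      obtain ⟨a1, a2, a3, a4, a5⟩ := hB'
      exact v3 B hB a1 a2 a3 a4 a5)
  rw [hU'] at key
  have he : 2 * n - 2 * m + 1 + (2 * n - m + 1) + (2 * n + 1) + (2 * n + 1) + (2 * n + m + 1) =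
      10 * n - 2 * m + 5 := by omega
  rw [he] at key
  exact key.2

/-- Counting along the entry `B 1 2`. -/
lemma ce [Finite F] (n m : ℕ) (hnm : m ≤ n) (S : Set (Matrix (Fin 3) (Fin 3) F[X]))
    (hS : ∀ B ∈ S, Bd n m B) (M : ℕ)
    (h : ∀ al be ga de z : F[X], al ∈ PD F (2 * n - 2 * m + 1) → be ∈ PD F (2 * n - m + 1) →
      ga ∈ PD F (2 * n + 1) → de ∈ PD F (2 * n + 1) → z ∈ PD F (2 * n + 2 * m + 1) →
      ∃ V : Set F[X], V.Finite ∧ V.ncard ≤ M ∧ ∀ B ∈ S, B 0 0 = al → B 0 1 = be → B 0 2 = ga →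
        B 1 1 = de → B 2 2 = z → B 1 2 ∈ V) :
    S.ncard ≤ Nat.card F ^ (10 * n - m + 5) * M := by
  obtain ⟨hU, hU'⟩ := box (F := F) (2 * n - 2 * m + 1) (2 * n - m + 1) (2 * n + 1) (2 * n + 1)
    (2 * n + 2 * m + 1)
  have key := fib S (fun B => (B 0 0, B 0 1, B 0 2, B 1 1, B 2 2)) (fun B => B 1 2) _ hU M
    (by
      intro B hB
      obtain ⟨h1, h2, h3, h4, h5, h6, -⟩ := ent n m hnm B (hS B hB)
      exact ⟨h1, h2, h3, h4, h6⟩)
    (by
      intro B hB B' hB' h1 h2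
      simp only [Prod.mk.injEq] at h1
      obtain ⟨a1, a2, a3, a4, a5⟩ := h1
      obtain ⟨-, -, -, -, -, -, b1, b2, b3⟩ := ent n m hnm B (hS B hB)
      obtain ⟨-, -, -, -, -, -, c1, c2, c3⟩ := ent n m hnm B' (hS B' hB')
      ext1 i j
      fin_cases i <;> fin_cases j <;> simp [*])
    (by
      rintro ⟨al, be, ga, de, et⟩ ⟨h1, h2, h3, h4, h5⟩
      obtain ⟨V, v1, v2, v3⟩ := h al be ga de et h1 h2 h3 h4 h5
      refine ⟨V, v1, v2, ?_⟩
      intro B hB hB'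
      simp only [Prod.mk.injEq] at hB'
      obtain ⟨a1, a2, a3, a4, a5⟩ := hB'
      exact v3 B hB a1 a2 a3 a4 a5)
  rw [hU'] at key
  have he : 2 * n - 2 * m + 1 + (2 * n - m + 1) + (2 * n + 1) + (2 * n + 1) + (2 * n + 2 * m + 1) =
      10 * n - m + 5 := by omega
  rw [he] at key
  exact key.2

/-- The combination of the two conditions. -/
noncomputable def RT (al be ga de et : F[X]) : F[X] :=
  (-(2 * ga + de) * al + 9 * (al * de - be ^ 2)) *
    ((-(2 * ga + de)) ^ 2 - 3 * (2 * ga * de - 2 * et * be + ga ^ 2)) +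
  3 * al * (-(2 * ga + de) * (2 * ga * de - 2 * et * be + ga ^ 2) -
    9 * (-al * et ^ 2 + 2 * be * ga * et - ga ^ 2 * de))

lemma RT_quad (al be ga de et : F[X]) :
    RT al be ga de et = 27 * al ^ 2 * et ^ 2 +
      ((-(2 * ga + de) * al + 9 * (al * de - be ^ 2)) * (6 * be) +
        3 * al * (2 * (2 * ga + de) * be - 18 * be * ga)) * et +
      ((-(2 * ga + de) * al + 9 * (al * de - be ^ 2)) *
        ((-(2 * ga + de)) ^ 2 - 3 * (2 * ga * de + ga ^ 2)) +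
        3 * al * (-(2 * ga + de) * (2 * ga * de + ga ^ 2) + 9 * (ga ^ 2 * de))) := by
  rw [RT]
  ring

lemma dm {p q : F[X]} {i j E : ℕ} (hp : p.natDegree ≤ i * E) (hq : q.natDegree ≤ j * E) :
    (p * q).natDegree ≤ (i + j) * E := by
  rw [add_mul]
  exact Polynomial.natDegree_mul_le_of_le hp hq

lemma da {p q : F[X]} {i E : ℕ} (hp : p.natDegree ≤ i * E) (hq : q.natDegree ≤ i * E) :
    (p + q).natDegree ≤ i * E :=
  le_trans (Polynomial.natDegree_add_le p q) (max_le hp hq)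

lemma ds {p q : F[X]} {i E : ℕ} (hp : p.natDegree ≤ i * E) (hq : q.natDegree ≤ i * E) :
    (p - q).natDegree ≤ i * E :=
  le_trans (Polynomial.natDegree_sub_le p q) (max_le hp hq)

lemma dn {p : F[X]} {i E : ℕ} (hp : p.natDegree ≤ i * E) : (-p).natDegree ≤ i * E := by
  rw [Polynomial.natDegree_neg]
  exact hp

lemma dk (k : ℕ) [k.AtLeastTwo] (i E : ℕ) {p : F[X]} (hp : p.natDegree ≤ i * E) :
    ((OfNat.ofNat k : F[X]) * p).natDegree ≤ i * E := by
  have h := dm (i := 0) (j := i) (E := E) (p := (OfNat.ofNat k : F[X])) (q := p) (by simp) hp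
  rwa [Nat.zero_add] at h

lemma dp {p : F[X]} {i E : ℕ} (hp : p.natDegree ≤ i * E) : (p ^ 2).natDegree ≤ (2 * i) * E := by
  rw [pow_two, two_mul]
  exact dm hp hp

lemma RT_deg (al be ga de et : F[X]) (E : ℕ) (h1 : al.natDegree ≤ 1 * E)
    (h2 : be.natDegree ≤ 1 * E) (h3 : ga.natDegree ≤ 1 * E) (h4 : de.natDegree ≤ 1 * E)
    (h5 : et.natDegree ≤ 1 * E) : (RT al be ga de et).natDegree ≤ 4 * E := by
  have a1 : (-(2 * ga + de)).natDegree ≤ 1 * E := dn (da (dk 2 1 E h3) h4)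
  have a2 : (2 * ga * de - 2 * et * be + ga ^ 2).natDegree ≤ 2 * E :=
    da (ds (dm (dk 2 1 E h3) h4) (dm (dk 2 1 E h5) h2)) (dp h3)
  have a3 : (-(2 * ga + de) * al + 9 * (al * de - be ^ 2)).natDegree ≤ 2 * E :=
    da (dm a1 h1) (dk 9 2 E (ds (dm h1 h4) (dp h2)))
  have a4 : ((-(2 * ga + de)) ^ 2 - 3 * (2 * ga * de - 2 * et * be + ga ^ 2)).natDegree ≤ 2 * E :=
    ds (dp a1) (dk 3 2 E a2)
  have a5 : (-al * et ^ 2 + 2 * be * ga * et - ga ^ 2 * de).natDegree ≤ 3 * E :=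
    ds (da (dm (dn h1) (dp h5)) (dm (dm (dk 2 1 E h2) h3) h5)) (dm (dp h3) h4)
  have a6 : (-(2 * ga + de) * (2 * ga * de - 2 * et * be + ga ^ 2) -
      9 * (-al * et ^ 2 + 2 * be * ga * et - ga ^ 2 * de)).natDegree ≤ 3 * E :=
    ds (dm a1 a2) (dk 9 3 E a5)
  exact da (dm a3 a4) (dm (dk 3 1 E h1) a6)


lemma three_ne (h3 : (3 : F) ≠ 0) {P : F[X]} (hP : Irreducible P) : ¬ P ∣ (3 : F[X]) := by
  intro h
  have h1 : IsUnit (C (3 : F)) := Polynomial.isUnit_C.2 (isUnit_iff_ne_zero.2 h3)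
  have h2 : (C (3 : F)) = (3 : F[X]) := map_ofNat C 3
  rw [h2] at h1
  exact hP.not_isUnit (isUnit_of_dvd_unit h h1)

lemma two_ne (h2 : (2 : F) ≠ 0) {P : F[X]} (hP : Irreducible P) : ¬ P ∣ (2 : F[X]) := by
  intro h
  have h1 : IsUnit (C (2 : F)) := Polynomial.isUnit_C.2 (isUnit_iff_ne_zero.2 h2)
  have h2 : (C (2 : F)) = (2 : F[X]) := map_ofNat C 2
  rw [h2] at h1
  exact hP.not_isUnit (isUnit_of_dvd_unit h h1)

/-- The degenerate matrices. -/
lemma c1 [Finite F] (h3 : (3 : F) ≠ 0) (n m : ℕ) (hnm : m ≤ n) :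
    ({B : Matrix (Fin 3) (Fin 3) F[X] | Bd n m B ∧ B 0 0 ≠ 0 ∧
      RT (B 0 0) (B 0 1) (B 0 2) (B 1 1) (B 1 2) = 0}).ncard ≤
      2 * Nat.card F ^ (12 * n + 6 - n / 2) := by
  have hq : 0 < Nat.card F := Nat.card_pos
  have h27 : (27 : F[X]) ≠ 0 := by
    have h1 : (27 : F[X]) = C ((3 : F) ^ 3) := by
      rw [C_pow, (map_ofNat C 3 : C (3 : F) = 3)]
      norm_num
    rw [h1, Ne, Polynomial.C_eq_zero]
    exact pow_ne_zero 3 h3
  refine le_trans (ce n m hnm _ (fun B hB => hB.1) 2 ?_) ?_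
  · intro al be ga de z _ _ _ _ _
    by_cases hal : al = 0
    · exact ⟨∅, Set.finite_empty, by simp, fun B hB h _ _ _ _ => absurd (h.trans hal) hB.2.1⟩
    · have hA : (27 : F[X]) * al ^ 2 ≠ 0 := mul_ne_zero h27 (pow_ne_zero 2 hal)
      obtain ⟨q1, q2⟩ := quad ((27 : F[X]) * al ^ 2)
        ((-(2 * ga + de) * al + 9 * (al * de - be ^ 2)) * (6 * be) +
          3 * al * (2 * (2 * ga + de) * be - 18 * be * ga))
        ((-(2 * ga + de) * al + 9 * (al * de - be ^ 2)) *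
          ((-(2 * ga + de)) ^ 2 - 3 * (2 * ga * de + ga ^ 2)) +
          3 * al * (-(2 * ga + de) * (2 * ga * de + ga ^ 2) + 9 * (ga ^ 2 * de))) hA
      refine ⟨_, q1, q2, ?_⟩
      intro B hB b1 b2 b3 b4 _
      have h := hB.2.2
      rw [RT_quad, b1, b2, b3, b4] at h
      exact h
  · rw [mul_comm]
    refine Nat.mul_le_mul_left 2 ?_
    exact Nat.pow_le_pow_right hq (by omega)

/-- The last entry is determined modulo a divisor of `RT`. -/
lemma c2 [Finite F] (h3 : (3 : F) ≠ 0) (n m : ℕ) (hnm : m ≤ n) (hn : 0 < n) :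
    ({B : Matrix (Fin 3) (Fin 3) F[X] | Bd n m B ∧ RT (B 0 0) (B 0 1) (B 0 2) (B 1 1) (B 1 2) ≠ 0 ∧
      ∃ P : F[X], P.Monic ∧ Irreducible P ∧ n < 2 * P.natDegree ∧
        P ∣ RT (B 0 0) (B 0 1) (B 0 2) (B 1 1) (B 1 2) ∧ ¬ P ∣ B 0 0 ∧
        P ∣ ia B ^ 2 - 3 * ib B}).ncard ≤
      32 * Nat.card F ^ (12 * n + 6 - n / 2) := by
  have hq : 0 < Nat.card F := Nat.card_pos
  refine le_trans (cz n m hnm _ (fun B hB => hB.1) (32 * Nat.card F ^ (2 * n + 2 * m + 1 - n / 2))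
    ?_) ?_
  · intro al be ga de et d1 d2 d3 d4 d5
    by_cases hR : RT al be ga de et = 0
    · refine ⟨∅, Set.finite_empty, by simp, ?_⟩
      intro B hB b1 b2 b3 b4 b5
      have h := hB.2.1
      rw [b1, b2, b3, b4, b5] at h
      exact absurd hR h
    · have hd : (RT al be ga de et).natDegree ≤ 4 * (2 * n + 2 * m) := by
        apply RT_deg
        · have := PD_nat d1
          omega
        · have := PD_nat d2
          omega
        · have := PD_nat d3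
          omega
        · have := PD_nat d4
          omega
        · have := PD_nat d5
          omega
      refine ⟨_, ?_, uni n (RT al be ga de et)
        ((-(2 * ga + de)) ^ 2 - 3 * (2 * ga * de - 2 * et * be + ga ^ 2)) (3 * al) hR
        (2 * n + 2 * m + 1) 32 (by omega) hn, ?_⟩
      · exact (PD_fin (2 * n + 2 * m + 1)).subset fun z hz => hz.1
      · intro B hB b1 b2 b3 b4 b5
        obtain ⟨hBd, -, P, p1, p2, p3, p4, p5, p6⟩ := hB
        obtain ⟨-, -, -, -, -, e6, -, -, -⟩ := ent n m hnm B hBd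
        rw [b1, b2, b3, b4, b5] at p4
        rw [b1] at p5
        refine ⟨e6, P, ⟨p1, p2, p3, p4⟩, ?_, ?_⟩
        · intro h
          rcases p2.prime.dvd_or_dvd h with h | h
          · exact three_ne h3 p2 h
          · exact p5 h
        · have : (-(2 * ga + de)) ^ 2 - 3 * (2 * ga * de - 2 * et * be + ga ^ 2) +
              3 * al * B 2 2 = ia B ^ 2 - 3 * ib B := by
            rw [ia, ib, b1, b2, b3, b4, b5]
            ring
          rw [this]
          exact p6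
  · rw [mul_left_comm, ← pow_add]
    refine Nat.mul_le_mul_left 32 ?_
    exact Nat.pow_le_pow_right hq (by omega)

/-- The entry `B 1 2` is determined modulo a divisor of `B 0 0`. -/
lemma c3 [Finite F] (h2 : (2 : F) ≠ 0) (h3 : (3 : F) ≠ 0) (n m : ℕ) (hnm : m ≤ n) (hn : 0 < n) :
    ({B : Matrix (Fin 3) (Fin 3) F[X] | Bd n m B ∧ B 0 0 ≠ 0 ∧
      ∃ P : F[X], P.Monic ∧ Irreducible P ∧ n < 2 * P.natDegree ∧ P ∣ B 0 0 ∧ ¬ P ∣ B 0 1 ∧
        P ∣ ia B ^ 2 - 3 * ib B}).ncard ≤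
      4 * Nat.card F ^ (12 * n + 6 - n / 2) := by
  have hq : 0 < Nat.card F := Nat.card_pos
  refine le_trans (ce n m hnm _ (fun B hB => hB.1) (4 * Nat.card F ^ (2 * n + m + 1 - n / 2))
    ?_) ?_
  · intro al be ga de z d1 d2 d3 d4 d5
    by_cases hR : al = 0
    · exact ⟨∅, Set.finite_empty, by simp, fun B hB h _ _ _ _ => absurd (h.trans hR) hB.2.1⟩
    · have hd : al.natDegree ≤ 2 * n := by
        have := PD_nat d1
        omega
      refine ⟨_, ?_, uni n al ((-(2 * ga + de)) ^ 2 - 3 * (2 * ga * de + ga ^ 2)) (6 * be) hR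
        (2 * n + m + 1) 4 (by omega) hn, ?_⟩
      · exact (PD_fin (2 * n + m + 1)).subset fun z hz => hz.1
      · intro B hB b1 b2 b3 b4 b5
        obtain ⟨hBd, -, P, p1, p2, p3, p4, p5, p6⟩ := hB
        obtain ⟨-, -, -, -, e5, -, -, -, -⟩ := ent n m hnm B hBd
        rw [b1] at p4
        rw [b2] at p5
        refine ⟨e5, P, ⟨p1, p2, p3, p4⟩, ?_, ?_⟩
        · intro h
          rcases p2.prime.dvd_or_dvd h with h | h
          · have h6 : (6 : F[X]) = 2 * 3 := by norm_num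
            rw [h6] at h
            rcases p2.prime.dvd_or_dvd h with h | h
            · exact two_ne h2 p2 h
            · exact three_ne h3 p2 h
          · exact p5 h
        · have : (-(2 * ga + de)) ^ 2 - 3 * (2 * ga * de + ga ^ 2) +
              6 * be * B 1 2 = (ia B ^ 2 - 3 * ib B) - (3 * B 2 2) * al := by
            rw [ia, ib, b1, b2, b3, b4]
            ring
          rw [this]
          exact dvd_sub p6 (dvd_mul_of_dvd_right p4 _)
  · rw [mul_left_comm, ← pow_add]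
    refine Nat.mul_le_mul_left 4 ?_
    exact Nat.pow_le_pow_right hq (by omega)

/-- Characteristic three. -/
lemma c4 [Finite F] (n m : ℕ) (hnm : m ≤ n) (hn : 0 < n) :
    ({B : Matrix (Fin 3) (Fin 3) F[X] | Bd n m B ∧ ia B ≠ 0 ∧
      ∃ P : F[X], P.Monic ∧ Irreducible P ∧ n < 2 * P.natDegree ∧ P ∣ ia B ∧ ¬ P ∣ B 0 0 ∧
        P ∣ ib B}).ncard ≤
      4 * Nat.card F ^ (12 * n + 6 - n / 2) := by
  have hq : 0 < Nat.card F := Nat.card_pos
  refine le_trans (cz n m hnm _ (fun B hB => hB.1) (4 * Nat.card F ^ (2 * n + 2 * m + 1 - n / 2))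
    ?_) ?_
  · intro al be ga de et d1 d2 d3 d4 d5
    by_cases hR : -(2 * ga + de) = 0
    · refine ⟨∅, Set.finite_empty, by simp, ?_⟩
      intro B hB b1 b2 b3 b4 b5
      have h := hB.2.1
      rw [ia, b3, b4] at h
      exact absurd hR h
    · have hd : (-(2 * ga + de)).natDegree ≤ 1 * (2 * n) := by
        refine dn (da (dk 2 1 _ ?_) ?_)
        · have := PD_nat d3
          omega
        · have := PD_nat d4
          omega
      refine ⟨_, ?_, uni n (-(2 * ga + de)) (2 * ga * de - 2 * et * be + ga ^ 2) (-al) hR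
        (2 * n + 2 * m + 1) 4 (by omega) hn, ?_⟩
      · exact (PD_fin (2 * n + 2 * m + 1)).subset fun z hz => hz.1
      · intro B hB b1 b2 b3 b4 b5
        obtain ⟨hBd, -, P, p1, p2, p3, p4, p5, p6⟩ := hB
        obtain ⟨-, -, -, -, -, e6, -, -, -⟩ := ent n m hnm B hBd
        rw [ia, b3, b4] at p4
        rw [b1] at p5
        refine ⟨e6, P, ⟨p1, p2, p3, p4⟩, ?_, ?_⟩
        · intro h
          exact p5 ((dvd_neg).1 h)
        · have : 2 * ga * de - 2 * et * be + ga ^ 2 + -al * B 2 2 = ib B := by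
            rw [ib, b1, b2, b3, b4, b5]
            ring
          rw [this]
          exact p6
  · rw [mul_left_comm, ← pow_add]
    refine Nat.mul_le_mul_left 4 ?_
    exact Nat.pow_le_pow_right hq (by omega)

lemma Bd_fin [Finite F] (n m : ℕ) : ({B : Matrix (Fin 3) (Fin 3) F[X] | Bd n m B}).Finite := by
  have h : ({B : Fin 3 → Fin 3 → F[X] | ∀ i, B i ∈ {r : Fin 3 → F[X] |
      ∀ j, r j ∈ PD F (2 * n + 2 * m + 1)}}).Finite :=
    Set.Finite.pi' fun i => Set.Finite.pi' fun j => PD_fin (2 * n + 2 * m + 1)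
  refine h.subset ?_
  intro B hB i j
  refine PD_mem fun h0 => ?_
  have h1 := hB.2 i j h0
  have h2 : ∀ i : Fin 3, dd m i ≤ m := by
    intro i
    fin_cases i <;> simp [dd]
  have h3 := h2 i
  have h4 := h2 j
  omega

lemma RT_dvd (n m : ℕ) (hnm : m ≤ n) (B : Matrix (Fin 3) (Fin 3) F[X]) (hB : Bd n m B) (P : F[X])
    (h1 : P ∣ ia B ^ 2 - 3 * ib B) (h2 : P ∣ ia B * ib B - 9 * ic B) :
    P ∣ RT (B 0 0) (B 0 1) (B 0 2) (B 1 1) (B 1 2) := by
  obtain ⟨-, -, -, -, -, -, b1, b2, b3⟩ := ent n m hnm B hB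
  have h : RT (B 0 0) (B 0 1) (B 0 2) (B 1 1) (B 1 2) =
      (ia B * B 0 0 + 9 * (B 0 0 * B 1 1 - B 0 1 ^ 2)) * (ia B ^ 2 - 3 * ib B) +
        3 * B 0 0 * (ia B * ib B - 9 * ic B) := by
    rw [RT, ia, ib, ic, Matrix.det_fin_three, b1, b2, b3]
    ring
  rw [h]
  exact dvd_add (dvd_mul_of_dvd_right h1 _) (dvd_mul_of_dvd_right h2 _)

/-- A bound of the form `C q^(12 n + 6 - n / 2)` is small. -/
lemma small [Finite F] (m : ℕ) (ε : ℝ) (hε : 0 < ε) (K : ℕ) : ∃ N₀ : ℕ, ∀ n : ℕ, N₀ ≤ n →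
    m ≤ n ∧ 0 < n ∧ ∀ c : ℕ, c ≤ K * Nat.card F ^ (12 * n + 6 - n / 2) →
      (c : ℝ) ≤ ε * (Nat.card F : ℝ) ^ (12 * n + 6) := by
  have hq : (2 : ℝ) ≤ Nat.card F := by
    have : 1 < Nat.card F := Finite.one_lt_card
    exact_mod_cast this
  obtain ⟨j, hj⟩ := pow_unbounded_of_one_lt ((K : ℝ) / ε) (one_lt_two)
  refine ⟨m + 2 * j + 1, fun n hn => ⟨by omega, by omega, fun c hc => ?_⟩⟩
  have h1 : (c : ℝ) ≤ K * (Nat.card F : ℝ) ^ (12 * n + 6 - n / 2) := by exact_mod_cast hc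
  have h2 : (Nat.card F : ℝ) ^ (12 * n + 6) = (Nat.card F : ℝ) ^ (12 * n + 6 - n / 2) *
      (Nat.card F : ℝ) ^ (n / 2) := by
    rw [← pow_add]
    congr 1
    omega
  have h3 : (K : ℝ) ≤ ε * (Nat.card F : ℝ) ^ (n / 2) := by
    have h4 : (2 : ℝ) ^ j ≤ (Nat.card F : ℝ) ^ (n / 2) :=
      le_trans (pow_le_pow_right₀ one_le_two (by omega : j ≤ n / 2))
        (pow_le_pow_left₀ (by norm_num) hq _)
    rw [div_lt_iff₀ hε] at hj
    nlinarith
  rw [h2]
  have h5 : (0 : ℝ) ≤ (Nat.card F : ℝ) ^ (12 * n + 6 - n / 2) := by positivity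
  calc (c : ℝ) ≤ K * (Nat.card F : ℝ) ^ (12 * n + 6 - n / 2) := h1
    _ ≤ (ε * (Nat.card F : ℝ) ^ (n / 2)) * (Nat.card F : ℝ) ^ (12 * n + 6 - n / 2) :=
      mul_le_mul_of_nonneg_right h3 h5
    _ = _ := by ring

end Pool.AVS.TB3

namespace Pool.AVS

open Polynomial Matrix Pool.AVR TB3

theorem tb3_thm : TB3Stmt := by
  intro F _ _ h2 m ε hε
  obtain ⟨N₀, hN⟩ := small (F := F) m ε hε 38
  refine ⟨N₀, fun n hn => ?_⟩
  obtain ⟨hnm, hn0, hc⟩ := hN n hn
  apply hc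
  by_cases h3 : (3 : F) = 0
  · have hsub : {B : Matrix (Fin 3) (Fin 3) F[X] | Bd n m B ∧ B 0 0 ≠ 0 ∧ ia B ≠ 0 ∧
        ∃ P : F[X], P.Monic ∧ Irreducible P ∧ n < 2 * P.natDegree ∧
          TriP P (ia B) (ib B) (ic B) ∧ ¬ (P ∣ B 0 0 ∧ (P ∣ B 0 1 ∨ P ∣ ia B))} ⊆
        {B : Matrix (Fin 3) (Fin 3) F[X] | Bd n m B ∧ ia B ≠ 0 ∧
          ∃ P : F[X], P.Monic ∧ Irreducible P ∧ n < 2 * P.natDegree ∧ P ∣ ia B ∧ ¬ P ∣ B 0 0 ∧
            P ∣ ib B} := by
      rintro B ⟨b1, -, b3, P, p1, p2, p3, ⟨t1, t2, t3⟩, p5⟩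
      have h3' : (3 : F[X]) = 0 := by
        have : (3 : F[X]) = C (3 : F) := (map_ofNat C 3).symm
        rw [this, h3, C_0]
      rw [h3', zero_mul, sub_zero] at t1
      have ha : P ∣ ia B := p2.prime.dvd_of_dvd_pow t1
      refine ⟨b1, b3, P, p1, p2, p3, ha, ?_, t3 h3⟩
      intro h
      exact p5 ⟨h, Or.inr ha⟩
    refine le_trans (Set.ncard_le_ncard hsub ((Bd_fin n m).subset fun B hB => hB.1)) ?_
    refine le_trans (c4 n m hnm hn0) ?_
    exact Nat.mul_le_mul_right _ (by norm_num)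
  · have hsub : {B : Matrix (Fin 3) (Fin 3) F[X] | Bd n m B ∧ B 0 0 ≠ 0 ∧ ia B ≠ 0 ∧
        ∃ P : F[X], P.Monic ∧ Irreducible P ∧ n < 2 * P.natDegree ∧
          TriP P (ia B) (ib B) (ic B) ∧ ¬ (P ∣ B 0 0 ∧ (P ∣ B 0 1 ∨ P ∣ ia B))} ⊆
        ({B : Matrix (Fin 3) (Fin 3) F[X] | Bd n m B ∧ B 0 0 ≠ 0 ∧
          RT (B 0 0) (B 0 1) (B 0 2) (B 1 1) (B 1 2) = 0} ∪
        {B : Matrix (Fin 3) (Fin 3) F[X] | Bd n m B ∧
          RT (B 0 0) (B 0 1) (B 0 2) (B 1 1) (B 1 2) ≠ 0 ∧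
          ∃ P : F[X], P.Monic ∧ Irreducible P ∧ n < 2 * P.natDegree ∧
            P ∣ RT (B 0 0) (B 0 1) (B 0 2) (B 1 1) (B 1 2) ∧ ¬ P ∣ B 0 0 ∧
            P ∣ ia B ^ 2 - 3 * ib B}) ∪
        {B : Matrix (Fin 3) (Fin 3) F[X] | Bd n m B ∧ B 0 0 ≠ 0 ∧
          ∃ P : F[X], P.Monic ∧ Irreducible P ∧ n < 2 * P.natDegree ∧ P ∣ B 0 0 ∧ ¬ P ∣ B 0 1 ∧
            P ∣ ia B ^ 2 - 3 * ib B} := by
      rintro B ⟨b1, b2, -, P, p1, p2, p3, ⟨t1, t2, -⟩, p5⟩
      by_cases hR : RT (B 0 0) (B 0 1) (B 0 2) (B 1 1) (B 1 2) = 0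
      · exact Or.inl (Or.inl ⟨b1, b2, hR⟩)
      · by_cases hal : P ∣ B 0 0
        · refine Or.inr ⟨b1, b2, P, p1, p2, p3, hal, ?_, t1⟩
          intro h
          exact p5 ⟨hal, Or.inl h⟩
        · exact Or.inl (Or.inr ⟨b1, hR, P, p1, p2, p3, RT_dvd n m hnm B b1 P t1 t2, hal, t1⟩)
    have k1 := c1 h3 n m hnm
    have k2 := c2 h3 n m hnm hn0
    have k3 := c3 h2 h3 n m hnm hn0
    refine le_trans (Set.ncard_le_ncard hsub ((Bd_fin n m).subset ?_)) ?_
    · rintro B ((hB | hB) | hB)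
      · exact hB.1
      · exact hB.1
      · exact hB.1
    · refine le_trans (Set.ncard_union_le _ _) ?_
      refine le_trans (Nat.add_le_add_right (Set.ncard_union_le _ _) _) ?_
      omega

end Pool.AVS
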