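import Pool.Agent.H14.AVS.S5

/-!
# AVS, module TBL: few discriminants are divisible by the square of a large prime
-/

set_option autoImplicit false

namespace Pool.AVS.TBL

open Polynomial Matrix Pool.AVR

variable {F : Type} [Field F]

lemma poly_fin [Finite F] (N : ℕ) : ({p : F[X] | p.natDegree ≤ N}).Finite := by
  have e := (Polynomial.degreeLTEquiv F (N + 1)).toEquiv
  have h1 : Finite (Polynomial.degreeLT F (N + 1)) := Finite.of_equiv _ e.symm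
  have h3 : ((Polynomial.degreeLT F (N + 1) : Submodule F F[X]) : Set F[X]).Finite :=
    Set.toFinite _
  refine h3.subset ?_
  intro p hp
  have hp' : p.natDegree ≤ N := hp
  change p ∈ Polynomial.degreeLT F (N + 1)
  rw [Polynomial.mem_degreeLT]
  refine lt_of_le_of_lt Polynomial.degree_le_natDegree ?_
  exact_mod_cast Nat.lt_succ_of_le hp'

lemma Bd_fin [Finite F] (n m : ℕ) : ({B : Matrix (Fin 3) (Fin 3) F[X] | Bd n m B}).Finite := by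
  have h : ({B : Fin 3 → Fin 3 → F[X] | ∀ i, B i ∈ {r : Fin 3 → F[X] |
      ∀ j, r j ∈ {p : F[X] | p.natDegree ≤ 2 * n + 2 * m}}}).Finite :=
    Set.Finite.pi' fun i => Set.Finite.pi' fun j => poly_fin (2 * n + 2 * m)
  refine h.subset ?_
  intro B hB i j
  change (B i j).natDegree ≤ 2 * n + 2 * m
  by_cases h0 : B i j = 0
  · rw [h0]
    simp
  have h1 := hB.2 i j h0
  have h2 : ∀ i : Fin 3, dd m i ≤ m := by
    intro i
    fin_cases i <;> simp [dd]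
  have h3 := h2 i
  have h4 := h2 j
  omega

end Pool.AVS.TBL

namespace Pool.AVS

open Polynomial Matrix Pool.AVR TBL

theorem tbl_thm (hTB1 : TB1Stmt) (hTB2 : TB2Stmt) (hTB3 : TB3Stmt) (hTB4 : TB4Stmt)
    (hTB5 : TB5Stmt) : TBLStmt := by
  intro F _ _ h2 m ε hε
  obtain ⟨N1, hN1⟩ := hTB1 F h2 m (ε / 4) (by positivity)
  obtain ⟨N2, hN2⟩ := hTB2 F h2 m (ε / 4) (by positivity)
  obtain ⟨N3, hN3⟩ := hTB3 F h2 m (ε / 4) (by positivity)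
  obtain ⟨N4, hN4⟩ := hTB4 F h2 m (ε / 4) (by positivity)
  refine ⟨N1 + N2 + N3 + N4, fun n hn => ?_⟩
  have k1 := hN1 n (by omega)
  have k2 := hN2 n (by omega)
  have k3 := hN3 n (by omega)
  have k4 := hN4 n (by omega)
  have hsub : {B : Matrix (Fin 3) (Fin 3) F[X] | Bd n m B ∧ ∃ P : F[X], P.Monic ∧
      Irreducible P ∧ n < 2 * P.natDegree ∧ P ^ 2 ∣ dB B} ⊆
      (({B : Matrix (Fin 3) (Fin 3) F[X] | Bd n m B ∧
        (B 0 0 = 0 ∨ ia B = 0 ∨ nuB B = 0 ∨ dB B = 0)} ∪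
      {B : Matrix (Fin 3) (Fin 3) F[X] | Bd n m B ∧ B 0 0 ≠ 0 ∧
        ∃ P : F[X], P.Monic ∧ Irreducible P ∧ n < 2 * P.natDegree ∧ P ∣ B 0 0 ∧
          (P ∣ B 0 1 ∨ P ∣ ia B)}) ∪
      {B : Matrix (Fin 3) (Fin 3) F[X] | Bd n m B ∧ B 0 0 ≠ 0 ∧ ia B ≠ 0 ∧
        ∃ P : F[X], P.Monic ∧ Irreducible P ∧ n < 2 * P.natDegree ∧
          TriP P (ia B) (ib B) (ic B) ∧ ¬ (P ∣ B 0 0 ∧ (P ∣ B 0 1 ∨ P ∣ ia B))}) ∪
      {B : Matrix (Fin 3) (Fin 3) F[X] | Bd n m B ∧ B 0 0 ≠ 0 ∧ nuB B ≠ 0 ∧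
        ∃ P : F[X], P.Monic ∧ Irreducible P ∧ n < 2 * P.natDegree ∧
          SngP P (ia B) (ib B) (ic B) ∧ ¬ (P ∣ B 0 0 ∧ (P ∣ B 0 1 ∨ P ∣ ia B))} := by
    rintro B ⟨b1, P, p1, p2, p3, p4⟩
    by_cases c1 : B 0 0 = 0 ∨ ia B = 0 ∨ nuB B = 0 ∨ dB B = 0
    · exact Or.inl (Or.inl (Or.inl ⟨b1, c1⟩))
    · push Not at c1
      obtain ⟨c1, c2, c3, c4⟩ := c1
      by_cases c5 : P ∣ B 0 0 ∧ (P ∣ B 0 1 ∨ P ∣ ia B)
      · exact Or.inl (Or.inl (Or.inr ⟨b1, c1, P, p1, p2, p3, c5.1, c5.2⟩))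
      · rcases hTB5 F h2 P (ia B) (ib B) (ic B) p2 p4 with h | h
        · exact Or.inl (Or.inr ⟨b1, c1, c2, P, p1, p2, p3, h, c5⟩)
        · exact Or.inr ⟨b1, c1, c3, P, p1, p2, p3, h, c5⟩
  have h3 := Set.ncard_le_ncard hsub ((Bd_fin n m).subset (by
    rintro B (((hB | hB) | hB) | hB)
    · exact hB.1
    · exact hB.1
    · exact hB.1
    · exact hB.1))
  have h4 := le_trans h3 (Set.ncard_union_le _ _)
  have h5 := le_trans h4 (Nat.add_le_add_right (Set.ncard_union_le _ _) _)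
  have h6 := le_trans h5 (Nat.add_le_add_right (Nat.add_le_add_right (Set.ncard_union_le _ _) _) _)
  have h7 : (({B : Matrix (Fin 3) (Fin 3) F[X] | Bd n m B ∧ ∃ P : F[X], P.Monic ∧
      Irreducible P ∧ n < 2 * P.natDegree ∧ P ^ 2 ∣ dB B}.ncard : ℕ) : ℝ) ≤ _ :=
    Nat.cast_le.2 h6
  push_cast at h7
  linarith

end Pool.AVS
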